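import Pool.Agent.H.MP_898d8d_co.D

namespace Pool.Agent.Results.MP_898d8d_co.SliceCore

/-- `T` is a sum of `r` tensors of the form `f (x i) * g (x restricted to the other indices)`. -/
def SliceDec {K : Type} [Field K] {d : ℕ} {X : Fin d → Type} (T : (∀ i, X i) → K) (r : ℕ) : Prop :=
  ∃ (c : Fin r → Fin d) (f : ∀ k, X (c k) → K) (g : ∀ k, (∀ j : {j // j ≠ c k}, X j) → K),
    ∀ x, T x = ∑ k, f k (x (c k)) * g k (fun j => x j)

/-- `T` is a sum of `r` tensors of the form `f (x on S) * g (x off S)`, `S` nonempty and proper. -/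
def PartDec {K : Type} [Field K] {d : ℕ} {X : Fin d → Type} (T : (∀ i, X i) → K) (r : ℕ) : Prop :=
  ∃ (S : Fin r → Finset (Fin d)) (f : ∀ k, (∀ j : {j // j ∈ S k}, X j) → K)
    (g : ∀ k, (∀ j : {j // j ∉ S k}, X j) → K), (∀ k, (S k).Nonempty ∧ S k ≠ Finset.univ) ∧
    ∀ x, T x = ∑ k, f k (fun j => x j) * g k (fun j => x j)

lemma shape {d : ℕ} (h2 : 2 ≤ d) (h3 : d ≤ 3) (S : Finset (Fin d)) (h : S.Nonempty)
    (h' : S ≠ Finset.univ) : ∃ c, (∀ j, j ∈ S ↔ j = c) ∨ (∀ j, j ∉ S ↔ j = c) := by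
  obtain rfl | rfl : d = 2 ∨ d = 3 := by omega
  · revert S; decide
  · revert S; decide

lemma part_iff {K : Type} [Field K] {d : ℕ} (h2 : 2 ≤ d) (h3 : d ≤ 3) {X : Fin d → Type}
    (T : (∀ i, X i) → K) (r : ℕ) : PartDec T r ↔ SliceDec T r := by
  constructor
  · rintro ⟨S, f, g, hS, h⟩
    have : ∀ k, ∃ (c : Fin d) (f' : X c → K) (g' : (∀ j : {j // j ≠ c}, X j) → K),
        ∀ x : ∀ i, X i, f k (fun j => x j) * g k (fun j => x j) =
          f' (x c) * g' (fun j => x j) := by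
      intro k
      obtain ⟨c, hc | hc⟩ := shape h2 h3 (S k) (hS k).1 (hS k).2
      · refine ⟨c, fun a => f k (fun j => ((hc j.1).mp j.2).symm ▸ a),
          fun z => g k (fun j => z ⟨j.1, fun e => j.2 ((hc j.1).mpr e)⟩), fun x => ?_⟩
        congr 2
        funext ⟨j, hj⟩
        obtain rfl := (hc j).mp hj
        rfl
      · refine ⟨c, fun a => g k (fun j => ((hc j.1).mp j.2).symm ▸ a),
          fun z => f k (fun j => z ⟨j.1, fun e => ((hc j.1).mpr e) j.2⟩), fun x => ?_⟩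
        rw [mul_comm]
        congr 2
        funext ⟨j, hj⟩
        obtain rfl := (hc j).mp hj
        rfl
    choose c f' g' h' using this
    exact ⟨c, f', g', fun x => by rw [h]; exact Finset.sum_congr rfl fun k _ => h' k x⟩
  · rintro ⟨c, f, g, h⟩
    refine ⟨fun k => {c k}, fun k z => f k (z ⟨c k, by simp⟩),
      fun k z => g k (fun j => z ⟨j.1, by simpa using j.2⟩), fun k => ⟨by simp, fun e => ?_⟩, h⟩
    have := congrArg Finset.card e
    simp at this
    omega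

theorem result (K : Type) [Field K] (d : ℕ) (hd : 2 ≤ d) (T : (Fin d → ℕ) → K)
    (hT : (Function.support T).Finite) (r : ℕ) :
    (IsLeast {n | SliceDec (X := fun _ => ℕ) T n} r →
      ∃ J : Fin d → Finset ℕ, (∀ i, (J i).card ≤ r) ∧
        ∀ s, SliceDec (fun x : ∀ i, J i => T (fun i => x i)) s →
          r ≤ (5 * (2 * d + 1) ^ 2) ^ d * s) ∧
    (d ≤ 3 → IsLeast {n | PartDec (X := fun _ => ℕ) T n} r →
      ∃ J : Fin d → Finset ℕ, (∀ i, (J i).card ≤ r) ∧
        ∀ s, PartDec (fun x : ∀ i, J i => T (fun i => x i)) s →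
          r ≤ (5 * (2 * d + 1) ^ 2) ^ d * s) := by
  have key : IsLeast {n | SliceDec (X := fun _ => ℕ) T n} r →
      ∃ J : Fin d → Finset ℕ, (∀ i, (J i).card ≤ r) ∧
        ∀ s, SliceDec (fun x : ∀ i, J i => T (fun i => x i)) s →
          r ≤ (5 * (2 * d + 1) ^ 2) ^ d * s := by
    intro h
    have := Pool.Agent.H.MP_898d8d_co.main (ι := Fin d) ⟨0, by omega⟩ T hT r h.1
      (fun s hs => h.2 hs)
    rw [Fintype.card_fin] at this
    exact this
  refine ⟨key, fun h3 h => ?_⟩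
  simp only [part_iff hd h3] at h ⊢
  exact key h

end Pool.Agent.Results.MP_898d8d_co.SliceCore
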